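import Mathlib
import Pool.Agent.H927R2.Osc.Dyn

/-!
# Strong uniform boundedness for oscillatory morphisms of `P^N` at a real place
-/

set_option autoImplicit false

open MvPolynomial Pool.Agent.H927R2.Osc

namespace Pool.Agent.Results.MP_13bc7b_nt.Oscillatory

/-- **Uniform boundedness of preperiodic points for oscillatory morphisms of `P^N`.**
For all `N` and `d ≥ 2` there is a constant `C` such that, for every number field `K` with a real
embedding `σ` (of any degree over `ℚ`) and every tuple of forms `f` of degree `d` in the
compositional semigroup `Osc σ` generated by bidiagonal monotone layers, negation and reversal: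
`f` is a morphism of `P^N` of degree `d` (the forms have no common zero but `0` over the algebraic
closure), every `K`-rational preperiodic point is a fixed point of `f ∘ f`, and there are at most
`C` of them. -/
theorem result :
    ∀ N d : ℕ, 2 ≤ d → ∃ C : ℕ,
      ∀ (K : Type) [Field K] [NumberField K] (σ : K →+* ℝ)
        (f : Fin (N + 1) → MvPolynomial (Fin (N + 1)) K), Osc σ d f →
          (∀ i, (f i).IsHomogeneous d) ∧
          (∀ x : Fin (N + 1) → AlgebraicClosure K,
              (∀ i, MvPolynomial.aeval x (f i) = 0) → x = 0) ∧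
          (∀ x : Fin (N + 1) → K, x ≠ 0 → (∃ m n : ℕ, m < n ∧ ∃ c : K, c ≠ 0 ∧
                (fun v : Fin (N + 1) → K => fun i => MvPolynomial.eval v (f i))^[n] x =
                  c • (fun v : Fin (N + 1) → K => fun i => MvPolynomial.eval v (f i))^[m] x) →
              ∃ c : K, c ≠ 0 ∧
                (fun v : Fin (N + 1) → K => fun i => MvPolynomial.eval v (f i))^[2] x = c • x) ∧
          ∀ S : Finset (Fin (N + 1) → K),
            (∀ x ∈ S, x ≠ 0) →
            (∀ x ∈ S, ∀ y ∈ S, ∀ c : K, x = c • y → x = y) →
            (∀ x ∈ S, ∃ m n : ℕ, m < n ∧ ∃ c : K, c ≠ 0 ∧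
                (fun v : Fin (N + 1) → K => fun i => MvPolynomial.eval v (f i))^[n] x =
                  c • (fun v : Fin (N + 1) → K => fun i => MvPolynomial.eval v (f i))^[m] x) →
            S.card ≤ C := by
  intro N d hd
  refine ⟨((d * d) ^ (2 * N + 4)) ^ (N + 1), ?_⟩
  intro K _ _ σ f hf
  have hgood := hf.good
  refine ⟨hgood.hom, fun x hx => no_common_zero hgood x hx, ?_, ?_⟩
  · intro x hx h
    exact sq_fixed hgood hd x hx h
  · intro S hS0 hSp hS
    exact card_le hgood hd S hS0 hSp hS

end Pool.Agent.Results.MP_13bc7b_nt.Oscillatory
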