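import Pool.Agent.H951R3.PB.Main

/-!
# Uniform bounds for the preperiodic points of all rational maps of degree `d`
-/

set_option autoImplicit false

namespace Pool.Agent.Results.MP_13bc7b_nt.RationalMapsBadPlaces

open Real NumberField Pool.Agent.H951R3.PB

universe u

/-- For all `d ≥ 2` and `D` there is `C` such that for every number field `K` of degree at most `D`
and every morphism `f` of degree `d` of the projective line over `K`: if `T` is a finite set of
finite places outside which `f` has potentially good reduction and `R ≥ 1` is at least the number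
of elements of `T`, or at least the ratio of the sum over the infinite places and `T` of
`1 +` (size of `f` at `v`) to the value of this term at one of these places, then `f` has at most
`C * R * log (1 + R)` preperiodic points in the projective line over `K`. -/
theorem result (d : ℕ) (hd : 2 ≤ d) (D : ℕ) : ∃ C : ℝ, 0 < C ∧
    ∀ (K : Type u) [Field K] [NumberField K], Module.finrank ℚ K ≤ D →
    ∀ f : Fin 2 → MvPolynomial (Fin 2) K, (∀ i, (f i).IsHomogeneous d) →
      (∀ x : Fin 2 → AlgebraicClosure K, (∀ i, MvPolynomial.aeval x (f i) = 0) → x = 0) →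
    ∀ T : Finset (FinitePlace K), (∀ v, v ∉ T → PotGood v.val d f) →
    ∀ R : ℝ, 1 ≤ R →
      ((T.card : ℝ) ≤ R ∨
        ∃ (wi : InfinitePlace K → AbsoluteValue (AlgebraicClosure K) ℝ)
          (wf : FinitePlace K → AbsoluteValue (AlgebraicClosure K) ℝ)
          (j : InfinitePlace K ⊕ T), (∀ v, Ext v.val (wi v)) ∧ (∀ v, Ext v.val (wf v)) ∧
          ∑ v : InfinitePlace K, (1 + max (msz d f (wi v)) 0) +
            ∑ v ∈ T, (1 + max (msz d f (wf v)) 0) ≤
            R * (1 + max (msz d f (Sum.elim wi (fun v : T => wf v.1) j)) 0)) →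
    ∀ X : Finset (Fin 2 → K), (∀ x ∈ X, x ≠ 0) →
      (∀ x ∈ X, ∀ y ∈ X, ∀ c : K, x = c • y → x = y) →
      (∀ x ∈ X, ∃ m n : ℕ, m < n ∧ ∃ c : K, c ≠ 0 ∧
        (fun v : Fin 2 → K => fun i => MvPolynomial.eval v (f i))^[n] x =
          c • (fun v : Fin 2 → K => fun i => MvPolynomial.eval v (f i))^[m] x) →
      (X.card : ℝ) ≤ C * R * log (1 + R) :=
  main_pre d hd D

end Pool.Agent.Results.MP_13bc7b_nt.RationalMapsBadPlaces
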