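import Pool.Agent.H951R2.MSResult

/-!
# Uniform boundedness for `x ^ d + c` in terms of the places of norm `1` modulo `d`
-/

set_option autoImplicit false

namespace Pool.Agent.Results.MP_13bc7b_nt.SplitPlacesBound

open NumberField Real Pool.Agent.H951R2.MS

universe u

/-- For all `d ≥ 2` and `D` there is `C` such that for every number field `K` of degree at most
`D`, every `c : K` and every `r ≥ 1`: if the part `heightOne d c` of the height of `c` at the
finite places of norm `1` modulo `d` is at most `r` times the rest of the height of `c`, or at most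
`r` times the local height of `c` at one finite place, or if at most `r` finite places of norm `1`
modulo `d` are poles of `c`, then `x ^ d + c` has at most `C * r * log (1 + r)` preperiodic
points in `K`. -/
theorem result (d : ℕ) (hd : 2 ≤ d) (D : ℕ) : ∃ C : ℝ, 0 < C ∧
    ∀ (K : Type u) [Field K] [NumberField K] (c : K) (r : ℝ), Module.finrank ℚ K ≤ D → 1 ≤ r →
      (heightOne d c ≤ r * (Height.logHeight₁ c - heightOne d c) ∨
        (∃ v : FinitePlace K, heightOne d c ≤ r * log⁺ (v c)) ∨
        ({v : FinitePlace K | 1 < v c ∧
          Ideal.absNorm v.maximalIdeal.asIdeal ≡ 1 [MOD d]}.ncard : ℝ) ≤ r) →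
      {x : K | (Set.range fun n : ℕ => (fun y : K => y ^ d + c)^[n] x).Finite}.Finite ∧
        ({x : K | (Set.range fun n : ℕ => (fun y : K => y ^ d + c)^[n] x).Finite}.ncard : ℝ) ≤
          C * r * log (1 + r) :=
  final d hd D

end Pool.Agent.Results.MP_13bc7b_nt.SplitPlacesBound
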